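import Pool.Agent.Q320.RF.Asm

/-!
# The residual finiteness growth of a finitely generated torsion-free nilpotent group depends on its
# complex Mal'cev completion only

Let `G` be a finitely generated torsion-free nilpotent group and `L` its rational Mal'cev Lie
algebra.  Let `ψ` be the least number `e` such that every nonzero element of the complex Lie algebra
`ℂ ⊗ L` lies outside an ideal of codimension at most `e`.  Then `RF_G ≈ (log n) ^ ψ`, for `G ≠ 1`.

Outline.  Let `Λ` be a Lie lattice of `L`; at large primes `p` the group is exponential over the
localisation of `Λ` at `p`.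

Upper bound: if the ideals of codimension at most `e` of `ℂ ⊗ L` separate the points, finitely many
of them do, with a certificate consisting of matrices over `ℂ`; it can be specialised to a number
field `K`, and modulo the large primes `p` for which there is a homomorphism from the ring of integers
of `K` to the field with `p` elements.  So an element of `G` whose logarithm is not divisible by `p`
survives in a quotient of order at most `p ^ e`.  The entries of the matrix of an element of length
`n` are rational numbers of polynomial height; so by the prime ideal theorem for `K` one finds such a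
`p` of size `O(log n)`.

Lower bound: if the ideals of codimension at most `e` do not separate the points of `ℂ ⊗ L`, then by
Galois descent they do not separate some nonzero rational vector from `0`, and by an ultraproduct
argument some `z ≠ 1` in `G` lies in all normal subgroups of index `p ^ k`, `k ≤ e`, `p` a large
prime.  A power of `z` with exponent a power of the least common multiple of `1, …, m` is of length
`exp (O(m))`, and each normal subgroup of finite index not containing it has index at least
`m ^ (e + 1)`.

The library `Pool.Agent.TH91.RF` (lattices, the passage from groups to Lie rings, large primes,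
Galois descent) and the prime ideal theorem `Pool.Agent.H484R2.pit` were in the starting files; the
two bounds and the conclusion are in `Pool.Agent.Q320.RF`.
-/

set_option autoImplicit false

namespace Pool.Agent.Results.MP_67ef3c_al.ComplexCompletion

/-- Word length of `g` with respect to the elements of `S` and their inverses. -/
noncomputable def wordLen {G : Type} [Group G] (S : Set G) (g : G) : ℕ :=
  sInf {n : ℕ | ∃ l : List G, l.length = n ∧ (∀ s ∈ l, s ∈ S ∨ s⁻¹ ∈ S) ∧ l.prod = g}

/-- `D_G(g)`: the least index of a normal subgroup of finite index which does not contain `g`. -/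
noncomputable def D {G : Type} [Group G] (g : G) : ℕ :=
  sInf {m : ℕ | ∃ K : Subgroup G, K.Normal ∧ K.FiniteIndex ∧ g ∉ K ∧ K.index = m}

/-- The residual finiteness growth `RF_G(n)`: the maximum of `D_G(g)` over all `g ≠ 1` of word
length at most `n` (and `0` if there is no such `g`). -/
noncomputable def RF {G : Type} [Group G] (S : Set G) (n : ℕ) : ℕ :=
  sSup {m : ℕ | ∃ g : G, g ≠ 1 ∧ wordLen S g ≤ n ∧ D g = m}

/-- `f ⪯ h`: there is `C > 0` with `f n ≤ C * h (C * n)` for all `n`. -/
def Dominated (f h : ℕ → ℕ) : Prop := ∃ C : ℕ, 0 < C ∧ ∀ n : ℕ, f n ≤ C * h (C * n)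

/-- `f ≈ h` -/
def Equivalent (f h : ℕ → ℕ) : Prop := Dominated f h ∧ Dominated h f

attribute [local instance 100] LieRing.ofAssociativeRing

/-- A rational Mal'cev completion of the group `G`, in exponential form: a rational Lie algebra `L`
of strictly upper triangular matrices and an embedding `ρ` of `G` in the unipotent group `exp L`,
such that every element of `exp L` has a positive power in `ρ G`.  (The finitely generated groups
which have such a completion are the finitely generated torsion-free nilpotent groups.) -/
structure Completion (G : Type) [Group G] where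
  /-- the size of the matrices -/
  N : ℕ
  /-- the rational Lie algebra -/
  L : LieSubalgebra ℚ (Matrix (Fin N) (Fin N) ℚ)
  upper : ∀ X ∈ L, ∀ i j : Fin N, j ≤ i → X i j = 0
  /-- the embedding -/
  ρ : G →* Matrix (Fin N) (Fin N) ℚ
  injective : Function.Injective ρ
  exp_mem : ∀ g : G, ∃ X ∈ L, ρ g = IsNilpotent.exp X
  dense : ∀ X ∈ L, ∃ m : ℕ, 0 < m ∧ ∃ g : G, ρ g = IsNilpotent.exp (m • X)

/-- The rational Mal'cev Lie algebra. -/
def Completion.QLie {G : Type} [Group G] (c : Completion G) : Type := c.L

noncomputable instance {G : Type} [Group G] (c : Completion G) : LieRing c.QLie :=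
  LieSubalgebra.lieRing ℚ _ c.L

noncomputable instance {G : Type} [Group G] (c : Completion G) : LieAlgebra ℚ c.QLie :=
  LieSubalgebra.lieAlgebra ℚ _ c.L

/-- The complexified Mal'cev Lie algebra `ℂ ⊗ L`, the Lie algebra of the complex Mal'cev
completion. -/
def Completion.CLie {G : Type} [Group G] (c : Completion G) : Type :=
  TensorProduct ℚ ℂ c.QLie

noncomputable instance {G : Type} [Group G] (c : Completion G) : LieRing c.CLie :=
  LieAlgebra.ExtendScalars.instLieRing ℚ ℂ c.QLie

noncomputable instance {G : Type} [Group G] (c : Completion G) : LieAlgebra ℂ c.CLie :=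
  LieAlgebra.ExtendScalars.instLieAlgebra ℚ ℂ c.QLie

/-- The least `e` such that every nonzero element of the complex Lie algebra `L` lies outside an
ideal of codimension at most `e`. -/
noncomputable def ψ (L : Type) [LieRing L] [LieAlgebra ℂ L] : ℕ :=
  sInf {e : ℕ | ∀ x : L, x ≠ 0 → ∃ I : LieIdeal ℂ L, x ∉ I ∧ Module.finrank ℂ (L ⧸ I) ≤ e}

/-- the completion in the notation of the library -/
def Completion.lib {G : Type} [Group G] (c : Completion G) : Pool.Agent.TH91.RF.MalcevCompletion G :=
  ⟨c.N, c.L, c.upper, c.ρ, c.injective, c.exp_mem, c.dense⟩

/-- (1) If `G₁` and `G₂` are finitely generated (torsion-free) nilpotent groups with isomorphic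
complexified Mal'cev Lie algebras, that is, with isomorphic complex Mal'cev completions, then their
residual finiteness growths are equivalent.  (2) For a nontrivial finitely generated (torsion-free)
nilpotent group `G` the residual finiteness growth is equivalent to `(log n) ^ ψ`, where `ψ` is the
least `e` such that every nonzero element of the complexified Mal'cev Lie algebra lies outside an
ideal of codimension at most `e`. -/
theorem result :
    (∀ (G₁ G₂ : Type) [Group G₁] [Group G₂] [Group.IsNilpotent G₁] [Group.IsNilpotent G₂]
      (c₁ : Completion G₁) (c₂ : Completion G₂) (_ : Nonempty (c₁.CLie ≃ₗ⁅ℂ⁆ c₂.CLie))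
      (S₁ : Set G₁) (S₂ : Set G₂), S₁.Finite → Subgroup.closure S₁ = ⊤ → S₂.Finite →
      Subgroup.closure S₂ = ⊤ → Equivalent (RF S₁) (RF S₂)) ∧
    (∀ (G : Type) [Group G] [Group.IsNilpotent G] [Nontrivial G] (c : Completion G) (S : Set G),
      S.Finite → Subgroup.closure S = ⊤ →
      1 ≤ ψ c.CLie ∧ Equivalent (RF S) fun n => Nat.log 2 (n + 1) ^ ψ c.CLie) := by
  constructor
  · intro G₁ G₂ _ _ _ _ c₁ c₂ ⟨φ⟩ S₁ S₂ h1 h2 h3 h4
    exact Pool.Agent.Q320.RF.rf_equiv c₁.lib c₂.lib φ S₁ h1 h2 S₂ h3 h4
  · intro G _ _ _ c S h1 h2
    exact Pool.Agent.Q320.RF.rf_main c.lib S h1 h2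

end Pool.Agent.Results.MP_67ef3c_al.ComplexCompletion
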